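import Mathlib

namespace DRC

structure Good (f : ℤ → ℝ) (N : ℤ) (q : ℝ) : Prop where
  q1 : 1 ≤ q
  h1 : ∀ z, N ≤ z → q ≤ f (z+1) - f z
  lo : ∀ z, N ≤ z → z ≤ 2*N → 1/(5*q) ≤ f (z+2) - 2*f (z+1) + f z
  hi : ∀ z, N ≤ z → z ≤ 2*N → f (z+2) - 2*f (z+1) + f z ≤ 1/q

variable {f : ℤ → ℝ} {N : ℤ} {q : ℝ}

lemma Good.mono (h : Good f N q) (z : ℤ) (hz : N ≤ z) (k : ℕ) :
    (k:ℝ)*q ≤ f (z+k) - f z := by
  induction k with
  | zero => simp
  | succ k ih =>
    have := h.h1 (z+k) (by omega)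
    have e : z + ((k+1 : ℕ):ℤ) = z + k + 1 := by push_cast; ring
    rw [e]; push_cast; linarith

lemma Good.dlo (h : Good f N q) (z : ℤ) (hz : N ≤ z) (k : ℕ) (hk : z + k ≤ 2*N+1) :
    (k:ℝ)*(1/(5*q)) ≤ (f (z+k+1) - f (z+k)) - (f (z+1) - f z) := by
  induction k with
  | zero => simp
  | succ k ih =>
    have i := ih (by push_cast at hk; omega)
    have := h.lo (z+k) (by omega) (by push_cast at hk; omega)
    have e : z + ((k+1 : ℕ):ℤ) = z + k + 1 := by push_cast; ring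
    have e2 : z + (k:ℤ) + 2 = z + k + 1 + 1 := by ring
    rw [e2] at this
    rw [e]; push_cast; linarith

lemma Good.dhi (h : Good f N q) (z : ℤ) (hz : N ≤ z) (k : ℕ) (hk : z + k ≤ 2*N+1) :
    (f (z+k+1) - f (z+k)) - (f (z+1) - f z) ≤ (k:ℝ)*(1/q) := by
  induction k with
  | zero => simp
  | succ k ih =>
    have i := ih (by push_cast at hk; omega)
    have := h.hi (z+k) (by omega) (by push_cast at hk; omega)
    have e : z + ((k+1 : ℕ):ℤ) = z + k + 1 := by push_cast; ring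
    have e2 : z + (k:ℤ) + 2 = z + k + 1 + 1 := by ring
    rw [e2] at this
    rw [e]; push_cast; linarith

lemma Good.uplo (h : Good f N q) (z : ℤ) (hz : N ≤ z) (k : ℕ) (hk : z + k ≤ 2*N+1) :
    (k:ℝ)*(k-1)/2*(1/(5*q)) ≤ f (z+k) - f z - k * (f (z+1) - f z) := by
  induction k with
  | zero => simp
  | succ k ih =>
    have i := ih (by push_cast at hk; omega)
    have := h.dlo z hz k (by push_cast at hk; omega)
    have e : z + ((k+1 : ℕ):ℤ) = z + k + 1 := by push_cast; ring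
    rw [e]; push_cast; nlinarith

lemma Good.uphi (h : Good f N q) (z : ℤ) (hz : N ≤ z) (k : ℕ) (hk : z + k ≤ 2*N+1) :
    f (z+k) - f z - k * (f (z+1) - f z) ≤ (k:ℝ)*(k-1)/2*(1/q) := by
  induction k with
  | zero => simp
  | succ k ih =>
    have i := ih (by push_cast at hk; omega)
    have := h.dhi z hz k (by push_cast at hk; omega)
    have e : z + ((k+1 : ℕ):ℤ) = z + k + 1 := by push_cast; ring
    rw [e]; push_cast; nlinarith

lemma Good.downlo (h : Good f N q) (z : ℤ) (hz : z ≤ 2*N+1) (k : ℕ) (hk : N ≤ z - k) :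
    (k:ℝ)*(k+1)/2*(1/(5*q)) ≤ f (z-k) - f z + k * (f (z+1) - f z) := by
  induction k with
  | zero => simp
  | succ k ih =>
    have i := ih (by push_cast at hk; omega)
    have := h.dlo (z-k-1) (by push_cast at hk; omega) (k+1) (by push_cast; omega)
    have e : z - ((k+1 : ℕ):ℤ) = z - k - 1 := by push_cast; ring
    have e1 : z - (k:ℤ) - 1 + ((k+1 : ℕ):ℤ) = z := by push_cast; ring
    have e2 : z - (k:ℤ) - 1 + 1 = z - k := by ring
    rw [e1, e2] at this
    rw [e]; push_cast at this ⊢; nlinarith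

lemma Good.downhi (h : Good f N q) (z : ℤ) (hz : z ≤ 2*N+1) (k : ℕ) (hk : N ≤ z - k) :
    f (z-k) - f z + k * (f (z+1) - f z) ≤ (k:ℝ)*(k+1)/2*(1/q) := by
  induction k with
  | zero => simp
  | succ k ih =>
    have i := ih (by push_cast at hk; omega)
    have := h.dhi (z-k-1) (by push_cast at hk; omega) (k+1) (by push_cast; omega)
    have e : z - ((k+1 : ℕ):ℤ) = z - k - 1 := by push_cast; ring
    have e1 : z - (k:ℤ) - 1 + ((k+1 : ℕ):ℤ) = z := by push_cast; ring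
    have e2 : z - (k:ℤ) - 1 + 1 = z - k := by ring
    rw [e1, e2] at this
    rw [e]; push_cast at this ⊢; nlinarith

/-- Two sided Taylor. -/
lemma Good.taylor (h : Good f N q) (z i : ℤ) (hz : N ≤ z) (hz2 : z ≤ 2*N) (hi : N ≤ z + i)
    (hi2 : z + i ≤ 2*N) : |f (z+i) - f z - i * (f (z+1) - f z)| ≤ (i:ℝ)^2/q := by
  have hq := h.q1
  have hq0 : 0 < q := by linarith
  have hq5 : 0 < 1/(5*q) := by positivity
  have hqi : 0 < 1/q := by positivity
  rcases le_total 0 i with h0 | h0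
  · obtain ⟨k, rfl⟩ := Int.eq_ofNat_of_zero_le h0
    have a := h.uplo z hz k (by omega)
    have b := h.uphi z hz k (by omega)
    have hk : 0 ≤ (k:ℝ)*(k-1) := by
      rcases Nat.eq_zero_or_pos k with rfl | hk
      · simp
      · have : (1:ℝ) ≤ k := by exact_mod_cast hk
        nlinarith
    have hk0 : (0:ℝ) ≤ k := Nat.cast_nonneg k
    push_cast
    rw [abs_le]
    constructor
    · have : 0 ≤ (k:ℝ)*(k-1)/2*(1/(5*q)) := by positivity
      have : 0 ≤ (k:ℝ)^2/q := by positivity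
      linarith
    · have e : (k:ℝ)^2/q = (k:ℝ)^2*(1/q) := by ring
      rw [e]; nlinarith
  · obtain ⟨k, hk⟩ := Int.eq_ofNat_of_zero_le (show 0 ≤ -i by omega)
    have hi' : i = -(k:ℤ) := by omega
    subst hi'
    have a := h.downlo z (by omega) k (by omega)
    have b := h.downhi z (by omega) k (by omega)
    have hk0 : (0:ℝ) ≤ k := Nat.cast_nonneg k
    have hk1 : (k:ℝ)*(k+1)/2 ≤ (k:ℝ)^2 := by
      rcases Nat.eq_zero_or_pos k with rfl | hk
      · simp
      · have : (1:ℝ) ≤ k := by exact_mod_cast hk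
        nlinarith
    have e0 : z + -(k:ℤ) = z - k := by ring
    rw [e0]
    push_cast
    rw [abs_le]
    constructor
    · have : 0 ≤ (k:ℝ)*(k+1)/2*(1/(5*q)) := by positivity
      have : 0 ≤ (-(k:ℝ))^2/q := by positivity
      linarith
    · have e : (-(k:ℝ))^2/q = (k:ℝ)^2*(1/q) := by ring
      rw [e]
      have := mul_le_mul_of_nonneg_right hk1 hqi.le
      linarith

lemma Good.conv3 (h : Good f N q) (a b c : ℤ) (ha : N ≤ a) (hab : a ≤ b) (hbc : b ≤ c)
    (hc : c ≤ 2*N) :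
    ((b:ℝ)-a)*(c-b)*(c-a)/2*(1/(5*q)) ≤ (c-b)*f a + (b-a)*f c - (c-a)*f b := by
  obtain ⟨k, hk⟩ := Int.eq_ofNat_of_zero_le (show 0 ≤ c - b by omega)
  obtain ⟨l, hl⟩ := Int.eq_ofNat_of_zero_le (show 0 ≤ b - a by omega)
  have hc' : c = b + k := by omega
  have ha' : a = b - l := by omega
  have u := h.uplo b (by omega) k (by omega)
  have d := h.downlo b (by omega) l (by omega)
  subst hc' ha'
  have hk0 : (0:ℝ) ≤ k := Nat.cast_nonneg k
  have hl0 : (0:ℝ) ≤ l := Nat.cast_nonneg l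
  have u' := mul_le_mul_of_nonneg_left u hl0
  have d' := mul_le_mul_of_nonneg_left d hk0
  push_cast
  have e1 : (b:ℝ) - (b - l) = l := by ring
  have e2 : (b:ℝ) + k - b = k := by ring
  have e3 : (b:ℝ) + k - (b - l) = k + l := by ring
  rw [e1, e2, e3]
  nlinarith

/-- the antichain property -/
lemma Good.anti (h : Good f N q) {b : ℝ} {n m n' m' : ℤ} (hn : N ≤ n) (hm : N ≤ m)
    (h1 : b ≤ f n + f m) (h2 : f n' + f m' < b + 1) (hnn : n ≤ n') (hmm : m ≤ m') :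
    n = n' ∧ m = m' := by
  obtain ⟨k, hk⟩ := Int.eq_ofNat_of_zero_le (show 0 ≤ n' - n by omega)
  obtain ⟨l, hl⟩ := Int.eq_ofNat_of_zero_le (show 0 ≤ m' - m by omega)
  have hn' : n' = n + k := by omega
  have hm' : m' = m + l := by omega
  subst hn' hm'
  have a := h.mono n hn k
  have c := h.mono m hm l
  have hq := h.q1
  by_contra hne
  have : 1 ≤ k + l := by
    by_contra hlt
    have : k = 0 ∧ l = 0 := by omega
    apply hne
    simp [this.1, this.2]
  have : (1:ℝ) ≤ (k:ℝ) + l := by exact_mod_cast this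
  nlinarith

/-- same sum -/
lemma Good.sameS (h : Good f N q) {b : ℝ} {n m : ℤ} (j : ℕ) (hmn : m ≤ n)
    (hm : N ≤ m - j) (hn : n + j ≤ 2*N)
    (h1 : b ≤ f n + f m) (h2 : f (n+j) + f (m-j) < b + 1) :
    (j:ℝ) * ((n:ℝ) - m + j) < 5*q := by
  have hq := h.q1
  have hq0 : 0 < q := by linarith
  obtain ⟨k, hk⟩ := Int.eq_ofNat_of_zero_le (show 0 ≤ n - m by omega)
  have hn' : n = m + k := by omega
  subst hn'
  have u := h.uplo (m+k) (by omega) j (by omega)
  have d := h.downlo m (by omega) j (by omega)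
  have dd := h.dlo m (by omega) k (by omega)
  have hj0 : (0:ℝ) ≤ j := Nat.cast_nonneg j
  have dd' := mul_le_mul_of_nonneg_left dd hj0
  have key : ((j:ℝ)*(k+j))*(1/(5*q)) < 1 := by nlinarith
  have h5 : 0 < 5*q := by positivity
  rw [mul_one_div, div_lt_one h5] at key
  push_cast
  have e : (m:ℝ)+k-m+j = k + j := by ring
  rw [e]; exact key

/-- near the diagonal: the sum takes at most two consecutive values -/
lemma Good.nearS (h : Good f N q) {b : ℝ} {n m n' m' : ℤ} (hmn : m ≤ n) (hmn' : m' ≤ n')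
    (hm : N ≤ m) (hm' : N ≤ m') (hn : n ≤ 2*N) (hn' : n' ≤ 2*N)
    (hd : (n:ℝ) - m ≤ q) (h1 : b ≤ f n + f m) (h1' : f n' + f m' < b+1)
    : n' + m' ≤ n + m + 1 := by
  have hq := h.q1
  have hq0 : 0 < q := by linarith
  have hqi : 0 < 1/(5*q) := by positivity
  by_contra hlt
  push Not at hlt
  have hD := h.h1 m (by omega)
  rcases lt_or_ge n n' with hc | hc
  · rcases le_total m m' with hc2 | hc2
    · have := h.anti (by omega) hm h1 h1' hc.le hc2
      omega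
    · -- n < n', m' ≤ m
      obtain ⟨i, hi⟩ := Int.eq_ofNat_of_zero_le (show 0 ≤ n' - n by omega)
      obtain ⟨j, hj⟩ := Int.eq_ofNat_of_zero_le (show 0 ≤ m - m' by omega)
      obtain ⟨k, hk⟩ := Int.eq_ofNat_of_zero_le (show 0 ≤ n - m by omega)
      have e1 : n' = n + i := by omega
      have e2 : m' = m - j := by omega
      have e3 : n = m + k := by omega
      have u := h.uplo n (by omega) i (by omega)
      have d := h.downlo m (by omega) j (by omega)
      have dd := h.dlo m (by omega) k (by omega)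
      rw [← e1] at u
      rw [← e2] at d
      rw [← e3] at dd
      have hij : j + 2 ≤ i := by omega
      have hij' : (j:ℝ) + 2 ≤ i := by exact_mod_cast hij
      have hi0 : (0:ℝ) ≤ i := Nat.cast_nonneg i
      have hj0 : (0:ℝ) ≤ j := Nat.cast_nonneg j
      have hk0 : (0:ℝ) ≤ k := Nat.cast_nonneg k
      have hii : (0:ℝ) ≤ (i:ℝ)*(i-1)/2*(1/(5*q)) := by
        have : 0 ≤ (i:ℝ)*(i-1) := by nlinarith
        positivity
      have hjj : (0:ℝ) ≤ (j:ℝ)*(j+1)/2*(1/(5*q)) := by positivity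
      have hkk : (0:ℝ) ≤ (k:ℝ)*(1/(5*q)) := by positivity
      have hDn : f (m+1) - f m ≤ f (n+1) - f n := by linarith
      have hp : (i:ℝ) * (f (m+1) - f m) ≤ i * (f (n+1) - f n) :=
        mul_le_mul_of_nonneg_left hDn hi0
      nlinarith
  · rcases le_total m' m with hc2 | hc2
    · omega
    · -- n' ≤ n, m ≤ m'
      obtain ⟨i, hi⟩ := Int.eq_ofNat_of_zero_le (show 0 ≤ n - n' by omega)
      obtain ⟨j, hj⟩ := Int.eq_ofNat_of_zero_le (show 0 ≤ m' - m by omega)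
      obtain ⟨k, hk⟩ := Int.eq_ofNat_of_zero_le (show 0 ≤ n - m by omega)
      have e1 : n' = n - i := by omega
      have e2 : m' = m + j := by omega
      have e3 : n = m + k := by omega
      have u := h.downlo n (by omega) i (by omega)
      have u2 := h.downhi n (by omega) i (by omega)
      have d := h.uplo m (by omega) j (by omega)
      have dd := h.dhi m (by omega) k (by omega)
      rw [← e1] at u u2
      rw [← e2] at d
      rw [← e3] at dd
      have hij : i + 2 ≤ j := by omega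
      have hijk : i + j ≤ k := by omega
      have hij' : (i:ℝ) + 2 ≤ j := by exact_mod_cast hij
      have hijk' : (i:ℝ) + j ≤ k := by exact_mod_cast hijk
      have hi0 : (0:ℝ) ≤ i := Nat.cast_nonneg i
      have hj0 : (0:ℝ) ≤ j := Nat.cast_nonneg j
      have hk0 : (0:ℝ) ≤ k := Nat.cast_nonneg k
      have hii : (0:ℝ) ≤ (i:ℝ)*(i+1)/2*(1/(5*q)) := by positivity
      have hjj : (0:ℝ) ≤ (j:ℝ)*(j-1)/2*(1/(5*q)) := by
        have : 0 ≤ (j:ℝ)*(j-1) := by nlinarith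
        positivity
      have hkq : (k:ℝ) ≤ q := by
        have : (n:ℝ) = m + k := by exact_mod_cast e3
        linarith
      have hk1 : (k:ℝ)*(1/q) ≤ 1 := by
        rw [mul_one_div, div_le_one hq0]; exact hkq
      have hDn : f (n+1) - f n ≤ f (m+1) - f m + 1 := by linarith
      have hp : (i:ℝ) * (f (n+1) - f n) ≤ i * (f (m+1) - f m + 1) :=
        mul_le_mul_of_nonneg_left hDn hi0
      have hr : ((j:ℝ)-i) * q ≤ ((j:ℝ)-i) * (f (m+1) - f m) :=
        mul_le_mul_of_nonneg_left hD (by linarith)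
      have hr2 : 2 * q ≤ ((j:ℝ)-i) * q :=
        mul_le_mul_of_nonneg_right (by linarith) hq0.le
      -- F(P') - F(P) ≥ (j-i) D(m) - i ≥ 2 q - q/2
      have : (i:ℝ) ≤ q/2 := by linarith
      -- f n - f n' ≤ i D(n)
      nlinarith

/-- three points in a short window are collinear -/
lemma Good.det (h : Good f N q) {b L : ℝ} {n1 m1 n2 m2 n3 m3 : ℤ} (hL0 : 0 ≤ L)
    (hL : 4*L ≤ q) (hL3 : 64*L^3 ≤ q^2)
    (hn1 : N ≤ n1 ∧ n1 ≤ 2*N) (hm1 : N ≤ m1 ∧ m1 ≤ 2*N)
    (hn2 : N ≤ n2 ∧ n2 ≤ 2*N) (hm2 : N ≤ m2 ∧ m2 ≤ 2*N)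
    (hn3 : N ≤ n3 ∧ n3 ≤ 2*N) (hm3 : N ≤ m3 ∧ m3 ≤ 2*N)
    (b1 : b ≤ f n1 + f m1 ∧ f n1 + f m1 < b+1)
    (b2 : b ≤ f n2 + f m2 ∧ f n2 + f m2 < b+1)
    (b3 : b ≤ f n3 + f m3 ∧ f n3 + f m3 < b+1)
    (l12 : |(n2:ℝ)-n1| + |(m2:ℝ)-m1| ≤ L)
    (l13 : |(n3:ℝ)-n1| + |(m3:ℝ)-m1| ≤ L) :
    (n2-n1)*(m3-m1) = (n3-n1)*(m2-m1) := by
  have hq := h.q1
  have hq0 : 0 < q := by linarith
  have t1 := h.taylor n1 (n2-n1) hn1.1 hn1.2 (by omega) (by omega)
  have t2 := h.taylor m1 (m2-m1) hm1.1 hm1.2 (by omega) (by omega)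
  have t3 := h.taylor n1 (n3-n1) hn1.1 hn1.2 (by omega) (by omega)
  have t4 := h.taylor m1 (m3-m1) hm1.1 hm1.2 (by omega) (by omega)
  have hA := h.h1 n1 hn1.1
  set a1 := f (n1+1) - f n1 with ha1
  set a2 := f (m1+1) - f m1 with ha2
  have e1 : n1 + (n2-n1) = n2 := by ring
  have e2 : m1 + (m2-m1) = m2 := by ring
  have e3 : n1 + (n3-n1) = n3 := by ring
  have e4 : m1 + (m3-m1) = m3 := by ring
  rw [e1] at t1
  rw [e2] at t2
  rw [e3] at t3
  rw [e4] at t4
  push_cast at t1 t2 t3 t4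
  set u1 : ℝ := (n2:ℝ)-n1 with hu1
  set u2 : ℝ := (m2:ℝ)-m1 with hu2
  set v1 : ℝ := (n3:ℝ)-n1 with hv1
  set v2 : ℝ := (m3:ℝ)-m1 with hv2
  rw [abs_le] at t1 t2 t3 t4
  have hu1' := abs_nonneg u1
  have hu2' := abs_nonneg u2
  have hv1' := abs_nonneg v1
  have hv2' := abs_nonneg v2
  have su : u1^2 + u2^2 ≤ L^2 := by
    have : u1^2 + u2^2 ≤ (|u1|+|u2|)^2 := by
      rw [← sq_abs u1, ← sq_abs u2]; nlinarith
    have : (|u1|+|u2|)^2 ≤ L^2 := pow_le_pow_left₀ (by positivity) l12 2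
    linarith
  have sv : v1^2 + v2^2 ≤ L^2 := by
    have : v1^2 + v2^2 ≤ (|v1|+|v2|)^2 := by
      rw [← sq_abs v1, ← sq_abs v2]; nlinarith
    have : (|v1|+|v2|)^2 ≤ L^2 := pow_le_pow_left₀ (by positivity) l13 2
    linarith
  have su' : u1^2/q + u2^2/q ≤ L^2/q := by
    rw [← add_div]; exact div_le_div_of_nonneg_right su hq0.le
  have sv' : v1^2/q + v2^2/q ≤ L^2/q := by
    rw [← add_div]; exact div_le_div_of_nonneg_right sv hq0.le
  have al : |u1*a1 + u2*a2| ≤ 1 + L^2/q := by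
    have o1 := t1.1
    have o2 := t1.2
    have o3 := t2.1
    have o4 := t2.2
    rw [abs_le]; clear t3 t4 b3 l13 l12 sv sv' su hL3 hL hA
    obtain ⟨x1, x2⟩ := b1
    obtain ⟨y1, y2⟩ := b2
    constructor <;> linarith
  have be : |v1*a1 + v2*a2| ≤ 1 + L^2/q := by
    have o1 := t3.1
    have o2 := t3.2
    have o3 := t4.1
    have o4 := t4.2
    rw [abs_le]; clear t1 t2 b2 l13 l12 sv su' su hL3 hL hA
    obtain ⟨x1, x2⟩ := b1
    obtain ⟨y1, y2⟩ := b3
    constructor <;> linarith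
  have hdet : a1 * (u1*v2 - v1*u2) = (u1*a1+u2*a2)*v2 - (v1*a1+v2*a2)*u2 := by ring
  have hub : |u2| ≤ L := by linarith
  have hvb : |v2| ≤ L := by linarith
  have hK : 0 ≤ 1 + L^2/q := by positivity
  have hb : |a1 * (u1*v2 - v1*u2)| ≤ 2*L*(1+L^2/q) := by
    rw [hdet]
    have s1 : |(u1*a1+u2*a2)*v2| ≤ (1+L^2/q)*L := by
      rw [abs_mul]; exact mul_le_mul al hvb hv2' hK
    have s2 : |(v1*a1+v2*a2)*u2| ≤ (1+L^2/q)*L := by
      rw [abs_mul]; exact mul_le_mul be hub hu2' hK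
    have := abs_sub ((u1*a1+u2*a2)*v2) ((v1*a1+v2*a2)*u2)
    linarith
  have hL2 : 2*L*(1+L^2/q) < q := by
    have e : 2*L*(1+L^2/q) = 2*L + 2*L^3/q := by ring
    rw [e]
    have : 2*L^3/q ≤ q/32 := by
      rw [div_le_iff₀ hq0]; nlinarith
    linarith
  have hdd : |u1*v2 - v1*u2| < 1 := by
    by_contra hge
    push Not at hge
    have ha : q ≤ |a1| := le_trans hA (le_abs_self a1)
    rw [abs_mul] at hb
    have : q * 1 ≤ |a1| * |u1*v2 - v1*u2| := mul_le_mul ha hge (by norm_num) (abs_nonneg _)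
    linarith
  have hz : u1*v2 - v1*u2 = (((n2-n1)*(m3-m1) - (n3-n1)*(m2-m1) : ℤ) : ℝ) := by
    push_cast; ring
  rw [hz] at hdd
  have : |((n2-n1)*(m3-m1) - (n3-n1)*(m2-m1) : ℤ)| < 1 := by exact_mod_cast hdd
  have := Int.abs_lt_one_iff.mp this
  linarith

/-- collinear triples are short -/
lemma Good.coll (h : Good f N q) {b : ℝ} {n1 m1 n2 m2 n3 m3 : ℤ}
    (hn1 : N ≤ n1) (hn12 : n1 < n2) (hn23 : n2 < n3) (hn3 : n3 ≤ 2*N)
    (hm3 : N ≤ m3) (hm32 : m3 ≤ m2) (hm21 : m2 ≤ m1) (hm1 : m1 ≤ 2*N)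
    (b1 : f n1 + f m1 < b+1)
    (b2 : b ≤ f n2 + f m2)
    (b3 : f n3 + f m3 < b+1)
    (hc : (n2-n1)*(m3-m1) = (n3-n1)*(m2-m1)) :
    ((n2:ℝ)-n1)*(n3-n2) < 10*q := by
  have hq := h.q1
  have hq0 : 0 < q := by linarith
  have c1 := h.conv3 n1 n2 n3 hn1 hn12.le hn23.le hn3
  have c2 := h.conv3 m3 m2 m1 hm3 hm32 hm21 hm1
  have hcR : ((n2:ℝ)-n1)*(m3-m1) = (n3-n1)*(m2-m1) := by exact_mod_cast hc
  set i : ℝ := (n2:ℝ)-n1 with hi
  set j : ℝ := (n3:ℝ)-n2 with hj
  have hi0 : 0 < i := by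
    have : (n1:ℝ) < n2 := by exact_mod_cast hn12
    linarith
  have hj0 : 0 < j := by
    have : (n2:ℝ) < n3 := by exact_mod_cast hn23
    linarith
  have e31 : (n3:ℝ) - n1 = i + j := by rw [hi, hj]; ring
  rw [e31] at hcR c1
  have p1 : 0 ≤ (m2:ℝ) - m3 := by
    have : (m3:ℝ) ≤ m2 := by exact_mod_cast hm32
    linarith
  have p2 : 0 ≤ (m1:ℝ) - m2 := by
    have : (m2:ℝ) ≤ m1 := by exact_mod_cast hm21
    linarith
  -- m1 - m2 = s i, m2 - m3 = s j
  set s : ℝ := ((m1:ℝ)-m2)/i with hs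
  have hs1 : (m1:ℝ) - m2 = s*i := by rw [hs]; field_simp
  have hs2 : (m2:ℝ) - m3 = s*j := by
    have : i * ((m2:ℝ) - m3) = i * (s*j) := by
      have : i * (s * j) = (s*i)*j := by ring
      rw [this, ← hs1]
      nlinarith
    exact mul_left_cancel₀ hi0.ne' this
  have hs0 : 0 ≤ s := by rw [hs]; positivity
  have e13 : (m1:ℝ) - m3 = s*(i+j) := by linarith
  have hk0 : 0 < 1/(5*q) := by positivity
  have key2 : 0 ≤ i * f m3 + j * f m1 - (i+j) * f m2 := by
    rcases hs0.eq_or_lt with hs0' | hs0'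
    · have z1 : (m1:ℝ) = m2 := by rw [← hs0'] at hs1; linarith
      have z2 : (m2:ℝ) = m3 := by rw [← hs0'] at hs2; linarith
      have z1' : m1 = m2 := by exact_mod_cast z1
      have z2' : m2 = m3 := by exact_mod_cast z2
      subst z1'; rw [← z2']; nlinarith
    · rw [hs1, hs2, e13] at c2
      have : 0 ≤ s * (i * f m3 + j * f m1 - (i+j) * f m2) := by
        have : 0 ≤ s*j*(s*i)*(s*(i+j))/2*(1/(5*q)) := by positivity
        nlinarith
      exact nonneg_of_mul_nonneg_right this hs0'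
  have tot : i*j*(i+j)/2*(1/(5*q)) < i + j := by nlinarith
  have hij : 0 < i + j := by positivity
  have : i*j/(10*q) < 1 := by
    have e : i*j*(i+j)/2*(1/(5*q)) = (i*j/(10*q))*(i+j) := by
      field_simp; ring
    rw [e] at tot
    by_contra hge
    push Not at hge
    nlinarith
  rwa [div_lt_one (by positivity)] at this

end DRC
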