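import Pool.Agent.Helper321.DR.C

namespace DRC

noncomputable def fz (z : ℤ) : ℝ := √((z:ℝ)*((z:ℝ)-1)*((z:ℝ)+2))

lemma good_fz (N : ℤ) (hN : 2 ≤ N) : Good fz N (√(N:ℝ)) := by
  have hNR : (2:ℝ) ≤ N := by exact_mod_cast hN
  have hN0 : (0:ℝ) ≤ N := by linarith
  set q := √(N:ℝ) with hq
  have hq2 : q^2 = N := Real.sq_sqrt hN0
  have hq0' : 0 ≤ q := Real.sqrt_nonneg _
  have hq1 : 1 ≤ q := by
    by_contra hlt
    push Not at hlt
    nlinarith
  have hq0 : 0 < q := by linarith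
  have hconv : ∀ z : ℤ, N ≤ z → ∃ x A B M : ℝ, x = (z:ℝ)+1 ∧ (3:ℝ) ≤ x ∧ N ≤ x - 1 ∧ 0 ≤ A ∧ 0 ≤ B ∧ 0 ≤ M ∧
      A = fz z ∧ M = fz (z+1) ∧ B = fz (z+2) ∧ A^2 = (x-1)*(x-2)*(x+1) ∧ M^2 = x*(x-1)*(x+2) ∧
      B^2 = (x+1)*x*(x+3) := by
    intro z hz
    have hzR : (N:ℝ) ≤ z := by exact_mod_cast hz
    refine ⟨(z:ℝ)+1, fz z, fz (z+2), fz (z+1), rfl, by linarith, by linarith, Real.sqrt_nonneg _,
      Real.sqrt_nonneg _, Real.sqrt_nonneg _, rfl, rfl, rfl, ?_, ?_, ?_⟩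
    · rw [fz, Real.sq_sqrt]
      · ring
      · have : 0 ≤ (z:ℝ)-1 := by linarith
        have : 0 ≤ (z:ℝ) := by linarith
        positivity
    · rw [fz, Real.sq_sqrt]
      · push_cast; ring
      · push_cast
        have : 0 ≤ (z:ℝ)+1-1 := by linarith
        have : 0 ≤ (z:ℝ) := by linarith
        positivity
    · rw [fz, Real.sq_sqrt]
      · push_cast; ring
      · push_cast
        have : 0 ≤ (z:ℝ)+2-1 := by linarith
        have : 0 ≤ (z:ℝ) := by linarith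
        positivity
  refine ⟨hq1, ?_, ?_, ?_⟩
  · intro z hz
    obtain ⟨x, A, B, M, hx, hx3, hxN, hA0, hB0, hM0, hA, hM, hB, hA2, hM2, hB2⟩ := hconv z hz
    rw [← hA, ← hM]
    -- q + A ≤ M
    have hAq : A * q ≤ (x-1)*(x-1/2) := by
      have h1 : (A*q)^2 ≤ ((x-1)*(x-1/2))^2 := by
        have e : (A*q)^2 = (x-1)*(x-2)*(x+1)*N := by rw [mul_pow, hA2, hq2]
        rw [e]
        have h2 : (x-1)*(x-2)*(x+1)*N ≤ (x-1)*(x-2)*(x+1)*(x-1) := by
          apply mul_le_mul_of_nonneg_left hxN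
          have : 0 ≤ x-1 := by linarith
          have : 0 ≤ x-2 := by linarith
          have : 0 ≤ x+1 := by linarith
          positivity
        have h3 : 0 ≤ (x-1)^2 := sq_nonneg _
        nlinarith
      have h0 : 0 ≤ (x-1)*(x-1/2) := by
        have : 0 ≤ x-1 := by linarith
        have : 0 ≤ x-1/2 := by linarith
        positivity
      exact abs_le_of_sq_le_sq' h1 h0 |>.2
    have : q + A ≤ M := by
      apply abs_le_of_sq_le_sq' (a := q+A) (b := M) _ hM0 |>.2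
      have : (q+A)^2 = q^2 + 2*(A*q) + A^2 := by ring
      rw [this, hM2, hA2, hq2]
      nlinarith
    linarith
  · intro z hz hz2
    obtain ⟨x, A, B, M, hx, hx3, hxN, hA0, hB0, hM0, hA, hM, hB, hA2, hM2, hB2⟩ := hconv z hz
    rw [← hA, ← hM, ← hB]
    have hx2N : x - 1 ≤ 2*N := by
      have : (z:ℝ) ≤ 2*N := by exact_mod_cast hz2
      linarith
    have hAB : x^3+x^2-4*x ≤ A*B := by
      apply abs_le_of_sq_le_sq' (a := x^3+x^2-4*x) (b := A*B) _ (by positivity) |>.2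
      rw [mul_pow, hA2, hB2]
      have : 0 ≤ x^2*(x^2-11) + 6*x + 0 := by
        rcases le_total 11 (x^2) with h | h
        · have : 0 ≤ x^2*(x^2-11) := mul_nonneg (sq_nonneg _) (by linarith)
          linarith
        · nlinarith [mul_nonneg (show 0 ≤ x - 3 by linarith) (show 0 ≤ x-3 by linarith), sq_nonneg (x*(x-3))]
      nlinarith
    have hMq : M ≤ 3/2*(x+1)*q := by
      apply abs_le_of_sq_le_sq' (a := M) (b := 3/2*(x+1)*q) _ (by positivity) |>.2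
      rw [hM2, mul_pow, hq2]
      have h1 : (3/2*(x+1))^2*((x-1)/2) ≤ (3/2*(x+1))^2*N :=
        mul_le_mul_of_nonneg_left (by linarith) (sq_nonneg _)
      nlinarith [mul_nonneg (show 0 ≤ x - 1 by linarith) (sq_nonneg (x+1))]
    by_contra hlt
    push Not at hlt
    have hS : A + B < 2*M + 1/(5*q) := by linarith
    have hS2 : (A+B)^2 < (2*M+1/(5*q))^2 := by
      apply pow_lt_pow_left₀ hS (by positivity) (by norm_num)
    have e1 : (2*M+1/(5*q))^2 = 4*M^2 + 4/5*(M/q) + 1/25*(1/q^2) := by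
      field_simp; ring
    have e2 : M/q ≤ 3/2*(x+1) := by
      rw [div_le_iff₀ hq0]; exact hMq
    have e3 : 1/q^2 ≤ 1 := by
      rw [hq2, div_le_one (by linarith)]; linarith
    rw [e1] at hS2
    nlinarith
  · intro z hz hz2
    obtain ⟨x, A, B, M, hx, hx3, hxN, hA0, hB0, hM0, hA, hM, hB, hA2, hM2, hB2⟩ := hconv z hz
    rw [← hA, ← hM, ← hB]
    have hAB : A*B ≤ x^3+x^2-7/2*x-1/2 := by
      apply abs_le_of_sq_le_sq' (a := A*B) (b := x^3+x^2-7/2*x-1/2) _ _ |>.2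
      · rw [mul_pow, hA2, hB2]
        nlinarith [sq_nonneg (5/2*x-1/2)]
      · nlinarith [mul_nonneg (show 0 ≤ x - 3 by linarith) (show 0 ≤ x-3 by linarith), mul_nonneg (show 0 ≤ x - 3 by linarith) (sq_nonneg x)]
    have hMq : x*q ≤ M := by
      apply abs_le_of_sq_le_sq' (a := x*q) (b := M) _ hM0 |>.2
      rw [hM2, mul_pow, hq2]
      have h1 : x^2*N ≤ x^2*(x-1) := mul_le_mul_of_nonneg_left (by linarith) (sq_nonneg _)
      nlinarith
    by_contra hlt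
    push Not at hlt
    have hS : 2*M + 1/q < A + B := by linarith
    have hS2 : (2*M+1/q)^2 < (A+B)^2 := by
      apply pow_lt_pow_left₀ hS (by positivity) (by norm_num)
    have e1 : (2*M+1/q)^2 = 4*M^2 + 4*(M/q) + (1/q)^2 := by
      field_simp
      try ring
    have e2 : x ≤ M/q := by
      rw [le_div_iff₀ hq0]; exact hMq
    have e3 : 0 ≤ (1/q)^2 := sq_nonneg _
    rw [e1] at hS2
    nlinarith

lemma card_le_real {α : Type*} (A : Finset α) (g : α → ℤ) (hinj : Set.InjOn g A) (L : ℝ)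
    (hL : 0 ≤ L) (h : ∀ a ∈ A, ∀ b ∈ A, (g b : ℝ) - g a ≤ L) : (A.card : ℝ) ≤ L + 1 := by
  rcases A.eq_empty_or_nonempty with rfl | hne
  · simp; linarith
  obtain ⟨a0, ha0, hmin⟩ := A.exists_min_image g hne
  have h1 : A.card ≤ (Finset.Icc (g a0) (g a0 + ⌊L⌋)).card := by
    apply Finset.card_le_card_of_injOn g _ hinj
    intro a ha
    simp only [Finset.coe_Icc, Set.mem_Icc]
    refine ⟨hmin a ha, ?_⟩
    have h2 := h a0 ha0 a ha
    have h3 : g a - g a0 ≤ ⌊L⌋ := by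
      rw [Int.le_floor]; push_cast; exact h2
    linarith
  rw [Int.card_Icc] at h1
  have h4 : 0 ≤ ⌊L⌋ := Int.floor_nonneg.2 hL
  have h5 : ((g a0 + ⌊L⌋ + 1 - g a0).toNat : ℤ) = ⌊L⌋ + 1 := by
    rw [Int.toNat_of_nonneg (by omega)]; ring
  have h6 : (A.card : ℤ) ≤ ⌊L⌋ + 1 := by
    rw [← h5]; exact_mod_cast h1
  have h7 : (A.card : ℝ) ≤ (⌊L⌋:ℝ) + 1 := by exact_mod_cast h6
  linarith [Int.floor_le L]

/-- window count, abstract form -/
lemma window_abs {f : ℤ → ℝ} {N : ℤ} {q : ℝ} (h : Good f N q) {r L b D0 : ℝ} (hr0 : 0 ≤ r) (hr : r^2 = q)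
    (hL0 : 0 ≤ L) (hL : 4*L ≤ q) (hL3 : 64*L^3 ≤ q^2)
    (A : Finset (ℤ × ℤ)) (hA : ∀ p ∈ A, N ≤ p.1 ∧ p.1 ≤ p.2 ∧ p.2 ≤ 2*N ∧
      b ≤ f p.1 + f p.2 ∧ f p.1 + f p.2 < b+1 ∧ D0 ≤ (p.2:ℝ) - p.1 ∧ (p.2:ℝ) - p.1 ≤ D0 + L) :
    (A.card : ℝ) ≤ 2*(4*r+1) := by
  rcases A.eq_empty_or_nonempty with rfl | hne
  · simp; linarith
  obtain ⟨P0, hP0, hmin⟩ := A.exists_min_image (fun p => p.1) hne
  obtain ⟨P1, hP1, hmax⟩ := A.exists_max_image (fun p => p.1) hne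
  have hinj : Set.InjOn (fun p : ℤ × ℤ => p.1) A := by
    intro p hp p' hp' he
    obtain ⟨a1, a2, a3, a4, a5, a6, a7⟩ := hA p hp
    obtain ⟨c1, c2, c3, c4, c5, c6, c7⟩ := hA p' hp'
    simp only at he
    rcases le_total p.2 p'.2 with hle | hle
    · have := h.anti a1 (by omega) a4 c5 he.le hle
      exact Prod.ext this.1 this.2
    · have := h.anti c1 (by omega) c4 a5 he.ge hle
      exact Prod.ext this.1.symm this.2.symm
  have key : ∀ s ∈ A, (s.1:ℝ) - P0.1 ≤ 4*r ∨ (P1.1:ℝ) - s.1 ≤ 4*r := by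
    intro s hs
    by_contra hcon
    push Not at hcon
    obtain ⟨hc1, hc2⟩ := hcon
    obtain ⟨a1, a2, a3, a4, a5, a6, a7⟩ := hA P0 hP0
    obtain ⟨c1, c2, c3, c4, c5, c6, c7⟩ := hA P1 hP1
    obtain ⟨s1, s2, s3, s4, s5, s6, s7⟩ := hA s hs
    have l1 : P0.1 < s.1 := by
      have : (P0.1:ℝ) < s.1 := by linarith
      exact_mod_cast this
    have l2 : s.1 < P1.1 := by
      have : (s.1:ℝ) < P1.1 := by linarith
      exact_mod_cast this
    have l3 : s.2 < P0.2 := by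
      by_contra hge
      push Not at hge
      have := h.anti a1 (by omega) a4 s5 l1.le hge
      omega
    have l4 : P1.2 < s.2 := by
      by_contra hge
      push Not at hge
      have := h.anti s1 (by omega) s4 c5 l2.le hge
      omega
    have l1' : (P0.1:ℝ) < s.1 := by exact_mod_cast l1
    have l2' : (s.1:ℝ) < P1.1 := by exact_mod_cast l2
    have l3' : (s.2:ℝ) < P0.2 := by exact_mod_cast l3
    have l4' : (P1.2:ℝ) < s.2 := by exact_mod_cast l4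
    have d1 : |(s.1:ℝ) - P0.1| + |(s.2:ℝ)-P0.2| ≤ L := by
      rw [abs_of_pos (by linarith), abs_of_neg (by linarith)]; linarith
    have d2 : |(P1.1:ℝ) - P0.1| + |(P1.2:ℝ)-P0.2| ≤ L := by
      rw [abs_of_pos (by linarith), abs_of_neg (by linarith)]; linarith
    have hdet := h.det (b := b) (n1 := P0.1) (m1 := P0.2) (n2 := s.1) (m2 := s.2) (n3 := P1.1)
      (m3 := P1.2) hL0 hL hL3 (by omega) (by omega) (by omega) (by omega) (by omega) (by omega)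
      ⟨a4, a5⟩ ⟨s4, s5⟩ ⟨c4, c5⟩ d1 d2
    have hco := h.coll (b := b) (n1 := P0.1) (m1 := P0.2) (n2 := s.1) (m2 := s.2) (n3 := P1.1)
      (m3 := P1.2) a1 l1 l2 (by omega) (by omega) l4.le l3.le (by omega) a5 s4 c5 hdet
    have : (4*r)*(4*r) ≤ ((s.1:ℝ) - P0.1)*(P1.1 - s.1) :=
      mul_le_mul hc1.le hc2.le (by positivity) (by linarith)
    nlinarith [h.q1]
  have hsub : A ⊆ A.filter (fun s => (s.1:ℝ) - P0.1 ≤ 4*r) ∪ A.filter (fun s => (P1.1:ℝ) - s.1 ≤ 4*r) := by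
    intro s hs
    rw [Finset.mem_union, Finset.mem_filter, Finset.mem_filter]
    rcases key s hs with h1 | h1
    · exact Or.inl ⟨hs, h1⟩
    · exact Or.inr ⟨hs, h1⟩
  have hcard := Finset.card_le_card hsub
  have hcu := Finset.card_union_le (A.filter (fun s => (s.1:ℝ) - P0.1 ≤ 4*r)) (A.filter (fun s => (P1.1:ℝ) - s.1 ≤ 4*r))
  have k1 : ((A.filter (fun s => (s.1:ℝ) - P0.1 ≤ 4*r)).card : ℝ) ≤ 4*r+1 := by
    apply card_le_real _ (fun p => p.1) (hinj.mono (fun x hx => (Finset.mem_filter.1 (Finset.mem_coe.1 hx)).1)) _ (by positivity)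
    intro a ha c hc
    rw [Finset.mem_filter] at ha hc
    have h1 : P0.1 ≤ a.1 := hmin a ha.1
    have h1' : (P0.1:ℝ) ≤ a.1 := by exact_mod_cast h1
    linarith [hc.2]
  have k2 : ((A.filter (fun s => (P1.1:ℝ) - s.1 ≤ 4*r)).card : ℝ) ≤ 4*r+1 := by
    apply card_le_real _ (fun p => p.1) (hinj.mono (fun x hx => (Finset.mem_filter.1 (Finset.mem_coe.1 hx)).1)) _ (by positivity)
    intro a ha c hc
    rw [Finset.mem_filter] at ha hc
    have h1 : c.1 ≤ P1.1 := hmax c hc.1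
    have h1' : (c.1:ℝ) ≤ P1.1 := by exact_mod_cast h1
    linarith [ha.2]
  have : (A.card : ℝ) ≤ ((A.filter (fun s => (s.1:ℝ) - P0.1 ≤ 4*r)).card : ℝ) + ((A.filter (fun s => (P1.1:ℝ) - s.1 ≤ 4*r)).card : ℝ) := by
    exact_mod_cast hcard.trans hcu
  linarith

noncomputable def Lam (n : ℕ) : ℝ := √((n : ℝ) * ((n : ℝ) - 1) * ((n : ℝ) + 2))

/-- the pairs of the unit band at `b` -/
noncomputable def band (N : ℕ) (b : ℤ) : Finset (ℕ × ℕ) :=
  ((Finset.Ico N (2 * N)) ×ˢ (Finset.Ico N (2 * N))).filter (fun p => ⌊Lam p.1 + Lam p.2⌋ = b)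

lemma Lam_fz (n : ℕ) : Lam n = fz n := by simp [Lam, fz]

theorem window : ∃ c C : ℝ, 0 < c ∧ 0 < C ∧ ∀ (N : ℕ) (b : ℤ) (D0 : ℝ), 2 ≤ N →
    (((band N b).filter (fun p => p.1 ≤ p.2 ∧ D0 ≤ (p.2 : ℝ) - p.1 ∧
      (p.2 : ℝ) - p.1 ≤ D0 + c * (N : ℝ) ^ (1 / 3 : ℝ))).card : ℝ) ≤ C * (N : ℝ) ^ (1 / 4 : ℝ) := by
  refine ⟨1/4, 10, by norm_num, by norm_num, ?_⟩
  intro N b D0 hN
  have hNR : (2:ℝ) ≤ N := by exact_mod_cast hN
  have hN0 : (0:ℝ) < N := by linarith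
  have hg := good_fz N (by exact_mod_cast hN)
  set q := √(((N:ℤ)):ℝ) with hq
  have hq2 : q^2 = N := by
    rw [hq, Real.sq_sqrt] <;> simp
  set r := (N:ℝ)^(1/4:ℝ) with hr
  have hr0 : 0 ≤ r := by positivity
  have hr1 : 1 ≤ r := by
    rw [hr]; exact Real.one_le_rpow (by linarith) (by norm_num)
  have hrq : r^2 = q := by
    rw [hr, hq, Real.sqrt_eq_rpow, ← Real.rpow_natCast, ← Real.rpow_mul (by positivity)]
    norm_num
  set L := 1/4*(N:ℝ)^(1/3:ℝ) with hLdef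
  have hL0 : 0 ≤ L := by positivity
  have hL3 : 64*L^3 ≤ q^2 := by
    have : ((N:ℝ)^(1/3:ℝ))^3 = N := by
      rw [← Real.rpow_natCast, ← Real.rpow_mul (by positivity)]
      norm_num
    rw [hLdef, mul_pow, this, hq2]; linarith
  have hL : 4*L ≤ q := by
    have h1 : (N:ℝ)^(1/3:ℝ) ≤ (N:ℝ)^(1/2:ℝ) :=
      Real.rpow_le_rpow_of_exponent_le (by linarith) (by norm_num)
    have h2 : q = (N:ℝ)^(1/2:ℝ) := by
      rw [hq, Real.sqrt_eq_rpow]; simp
    rw [hLdef, h2]; linarith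
  set A := (band N b).filter (fun p => p.1 ≤ p.2 ∧ D0 ≤ (p.2 : ℝ) - p.1 ∧
      (p.2 : ℝ) - p.1 ≤ D0 + L) with hA
  have hcast : Function.Injective (fun p : ℕ × ℕ => ((p.1:ℤ), (p.2:ℤ))) := by
    intro p p' he
    simp only [Prod.mk.injEq, Nat.cast_inj] at he
    exact Prod.ext he.1 he.2
  have hw := window_abs hg (r := r) (L := L) (b := b) (D0 := D0) hr0 hrq hL0 hL hL3
    (A.image (fun p : ℕ × ℕ => ((p.1:ℤ), (p.2:ℤ)))) (by
      intro p hp
      rw [Finset.mem_image] at hp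
      obtain ⟨s, hs, rfl⟩ := hp
      rw [hA, Finset.mem_filter, band, Finset.mem_filter, Finset.mem_product, Finset.mem_Ico,
        Finset.mem_Ico] at hs
      obtain ⟨⟨⟨⟨x1, x2⟩, x3, x4⟩, hf⟩, y1, y2, y3⟩ := hs
      rw [Int.floor_eq_iff] at hf
      rw [Lam_fz, Lam_fz] at hf
      refine ⟨?_, ?_, ?_, hf.1, hf.2, ?_, ?_⟩
      · show (N:ℤ) ≤ (s.1:ℤ)
        omega
      · show (s.1:ℤ) ≤ (s.2:ℤ)
        omega
      · show (s.2:ℤ) ≤ 2*(N:ℤ)
        omega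
      · simpa using y2
      · simpa using y3)
  rw [Finset.card_image_of_injective _ hcast] at hw
  linarith

end DRC
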