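import Pool.Agent.Helper321.DR.W

namespace DRC

variable {f : ℤ → ℝ} {N : ℤ} {q : ℝ}

lemma Good.lip (h : Good f N q) (z z' : ℤ) (hz : N ≤ z) (hz' : N ≤ z') (h2 : z ≤ 2*N+1)
    (h2' : z' ≤ 2*N+1) (hd : |(z':ℝ) - z| ≤ q) :
    |(f (z'+1) - f z') - (f (z+1) - f z)| ≤ 1 := by
  have hq := h.q1
  have hq0 : 0 < q := by linarith
  have hk5 : 0 < 1/(5*q) := by positivity
  rcases le_total z z' with hle | hle
  · obtain ⟨k, hk⟩ := Int.eq_ofNat_of_zero_le (show 0 ≤ z' - z by omega)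
    have e : z' = z + k := by omega
    have e' : (z':ℝ) - z = k := by
      have : (z':ℝ) = z + k := by exact_mod_cast e
      linarith
    have a := h.dlo z hz k (by omega)
    have b := h.dhi z hz k (by omega)
    rw [← e] at a b
    rw [e', abs_of_nonneg (Nat.cast_nonneg k)] at hd
    have h0 : 0 ≤ (k:ℝ)*(1/(5*q)) := by positivity
    have h1 : (k:ℝ)*(1/q) ≤ 1 := by
      rw [mul_one_div, div_le_one hq0]; exact hd
    rw [abs_le]; constructor <;> linarith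
  · obtain ⟨k, hk⟩ := Int.eq_ofNat_of_zero_le (show 0 ≤ z - z' by omega)
    have e : z = z' + k := by omega
    have e' : (z':ℝ) - z = -(k:ℝ) := by
      have : (z:ℝ) = z' + k := by exact_mod_cast e
      linarith
    have a := h.dlo z' hz' k (by omega)
    have b := h.dhi z' hz' k (by omega)
    rw [← e] at a b
    rw [e', abs_neg, abs_of_nonneg (Nat.cast_nonneg k)] at hd
    have h0 : 0 ≤ (k:ℝ)*(1/(5*q)) := by positivity
    have h1 : (k:ℝ)*(1/q) ≤ 1 := by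
      rw [mul_one_div, div_le_one hq0]; exact hd
    rw [abs_le]; constructor <;> linarith

lemma Good.slope (h : Good f N q) (z0 z : ℤ) (k : ℕ) (hz0 : N ≤ z0) (hz02 : z0 ≤ 2*N+1)
    (hz : N ≤ z) (hzk : z + k ≤ 2*N+1)
    (hd : ∀ i : ℕ, i < k → |((z+i : ℤ):ℝ) - z0| ≤ q) :
    |f (z+k) - f z - k*(f (z0+1) - f z0)| ≤ k := by
  induction k with
  | zero => simp
  | succ k ih =>
    have i := ih (by push_cast at hzk; omega) (fun i hi => hd i (by omega))
    have l := h.lip z0 (z+k) hz0 (by omega) hz02 (by push_cast at hzk; omega) (hd k (by omega))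
    have e : z + ((k+1 : ℕ):ℤ) = z + k + 1 := by push_cast; ring
    rw [e]; push_cast
    rw [abs_le] at i l ⊢
    obtain ⟨i1, i2⟩ := i
    obtain ⟨l1, l2⟩ := l
    constructor <;> linarith

/-- slope lemma, integer form -/
lemma Good.slope' (h : Good f N q) (z0 z z' : ℤ) (hz0 : N ≤ z0) (hz02 : z0 ≤ 2*N+1)
    (hz : N ≤ z) (hzz : z ≤ z') (hzk : z' ≤ 2*N+1)
    (hd : |(z:ℝ) - z0| ≤ q) (hd' : |(z':ℝ) - z0| ≤ q) :
    |f z' - f z - ((z':ℝ) - z)*(f (z0+1) - f z0)| ≤ (z':ℝ) - z := by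
  obtain ⟨k, hk⟩ := Int.eq_ofNat_of_zero_le (show 0 ≤ z' - z by omega)
  have e : z' = z + k := by omega
  have e' : (z':ℝ) - z = k := by
    have : (z':ℝ) = z + k := by exact_mod_cast e
    linarith
  have := h.slope z0 z k hz0 hz02 hz (by omega) (by
    intro i hi
    push_cast
    have hi' : (i:ℝ) ≤ k := by exact_mod_cast hi.le
    have hi0 : (0:ℝ) ≤ i := Nat.cast_nonneg i
    rw [abs_le] at hd hd' ⊢
    obtain ⟨a1, a2⟩ := hd
    obtain ⟨b1, b2⟩ := hd'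
    constructor <;> linarith)
  rw [e', e]; exact this

/-- points on a line with slopes in a residue class -/
lemma line_abs (h : Good f N q) {r b : ℝ} (hr1 : 1 ≤ r) (hr : r^2 = q) {p k : ℤ} (hk : 0 < k)
    (hpk : IsCoprime p k) {l : ℤ}
    (A : Finset (ℤ × ℤ)) (hA : ∀ s ∈ A, N ≤ s.1 ∧ s.1 ≤ s.2 ∧ s.2 ≤ 2*N ∧
      b ≤ f s.1 + f s.2 ∧ f s.1 + f s.2 < b+1 ∧ k * s.2 + p * s.1 = l) :
    (A.card : ℝ) ≤ 2*(4*r/k+1) := by
  have hkR : (0:ℝ) < k := by exact_mod_cast hk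
  have hr0 : 0 ≤ r := by linarith
  rcases A.eq_empty_or_nonempty with rfl | hne
  · simp; positivity
  obtain ⟨P0, hP0, hmin⟩ := A.exists_min_image (fun p => p.1) hne
  obtain ⟨P1, hP1, hmax⟩ := A.exists_max_image (fun p => p.1) hne
  have hinj : ∀ s ∈ A, ∀ s' ∈ A, s.1 = s'.1 → s = s' := by
    intro s hs s' hs' he
    obtain ⟨a1, a2, a3, a4, a5, a6⟩ := hA s hs
    obtain ⟨c1, c2, c3, c4, c5, c6⟩ := hA s' hs'
    rcases le_total s.2 s'.2 with hle | hle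
    · have := h.anti a1 (by omega) a4 c5 he.le hle
      exact Prod.ext this.1 this.2
    · have := h.anti c1 (by omega) c4 a5 he.ge hle
      exact Prod.ext this.1.symm this.2.symm
  have hdvd : ∀ s ∈ A, ∀ s' ∈ A, k ∣ s'.1 - s.1 := by
    intro s hs s' hs'
    obtain ⟨a1, a2, a3, a4, a5, a6⟩ := hA s hs
    obtain ⟨c1, c2, c3, c4, c5, c6⟩ := hA s' hs'
    have : k ∣ p * (s'.1 - s.1) := ⟨s.2 - s'.2, by linarith⟩
    exact hpk.symm.dvd_of_dvd_mul_left this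
  have key : ∀ s ∈ A, (s.1:ℝ) - P0.1 ≤ 4*r ∨ (P1.1:ℝ) - s.1 ≤ 4*r := by
    intro s hs
    by_contra hcon
    push Not at hcon
    obtain ⟨hc1, hc2⟩ := hcon
    obtain ⟨a1, a2, a3, a4, a5, a6⟩ := hA P0 hP0
    obtain ⟨c1, c2, c3, c4, c5, c6⟩ := hA P1 hP1
    obtain ⟨s1, s2, s3, s4, s5, s6⟩ := hA s hs
    have l1 : P0.1 < s.1 := by
      have : (P0.1:ℝ) < s.1 := by linarith
      exact_mod_cast this
    have l2 : s.1 < P1.1 := by
      have : (s.1:ℝ) < P1.1 := by linarith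
      exact_mod_cast this
    have l3 : s.2 < P0.2 := by
      by_contra hge
      push Not at hge
      have := h.anti a1 (by omega) a4 s5 l1.le hge
      omega
    have l4 : P1.2 < s.2 := by
      by_contra hge
      push Not at hge
      have := h.anti s1 (by omega) s4 c5 l2.le hge
      omega
    have hdet : (s.1-P0.1)*(P1.2-P0.2) = (P1.1-P0.1)*(s.2-P0.2) := by
      have e1 : k*(s.2 - P0.2) = -p*(s.1-P0.1) := by linarith
      have e2 : k*(P1.2 - P0.2) = -p*(P1.1-P0.1) := by linarith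
      have : k * ((s.1-P0.1)*(P1.2-P0.2)) = k * ((P1.1-P0.1)*(s.2-P0.2)) := by
        calc k * ((s.1-P0.1)*(P1.2-P0.2)) = (s.1-P0.1)*(k*(P1.2-P0.2)) := by ring
          _ = (s.1-P0.1)*(-p*(P1.1-P0.1)) := by rw [e2]
          _ = (P1.1-P0.1)*(-p*(s.1-P0.1)) := by ring
          _ = (P1.1-P0.1)*(k*(s.2 - P0.2)) := by rw [e1]
          _ = _ := by ring
      exact mul_left_cancel₀ hk.ne' this
    have hco := h.coll (b := b) (n1 := P0.1) (m1 := P0.2) (n2 := s.1) (m2 := s.2) (n3 := P1.1)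
      (m3 := P1.2) a1 l1 l2 (by omega) (by omega) l4.le l3.le (by omega) a5 s4 c5 hdet
    have : (4*r)*(4*r) ≤ ((s.1:ℝ) - P0.1)*(P1.1 - s.1) :=
      mul_le_mul hc1.le hc2.le (by positivity) (by linarith)
    nlinarith [h.q1]
  have hsub : A ⊆ A.filter (fun s => (s.1:ℝ) - P0.1 ≤ 4*r) ∪ A.filter (fun s => (P1.1:ℝ) - s.1 ≤ 4*r) := by
    intro s hs
    rw [Finset.mem_union, Finset.mem_filter, Finset.mem_filter]
    rcases key s hs with h1 | h1
    · exact Or.inl ⟨hs, h1⟩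
    · exact Or.inr ⟨hs, h1⟩
  have hcard := Finset.card_le_card hsub
  have hcu := Finset.card_union_le (A.filter (fun s => (s.1:ℝ) - P0.1 ≤ 4*r)) (A.filter (fun s => (P1.1:ℝ) - s.1 ≤ 4*r))
  have ginj : Set.InjOn (fun s : ℤ × ℤ => (s.1 - P0.1)/k) A := by
    intro s hs s' hs' he
    simp only at he
    have d1 := hdvd P0 hP0 s hs
    have d2 := hdvd P0 hP0 s' hs'
    have : s.1 - P0.1 = s'.1 - P0.1 := by
      rw [← Int.ediv_mul_cancel d1, ← Int.ediv_mul_cancel d2, he]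
    exact hinj s hs s' hs' (by omega)
  have gval : ∀ s ∈ A, (((s.1 - P0.1)/k : ℤ) : ℝ) = ((s.1:ℝ) - P0.1)/k := by
    intro s hs
    have d1 := hdvd P0 hP0 s hs
    rw [eq_div_iff hkR.ne']
    have := Int.ediv_mul_cancel d1
    exact_mod_cast this
  have k1 : ((A.filter (fun s => (s.1:ℝ) - P0.1 ≤ 4*r)).card : ℝ) ≤ 4*r/k+1 := by
    apply card_le_real _ (fun s => (s.1 - P0.1)/k) (ginj.mono (fun x hx => (Finset.mem_filter.1 (Finset.mem_coe.1 hx)).1)) _ (by positivity)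
    intro a ha c hc
    rw [Finset.mem_filter] at ha hc
    show (((c.1 - P0.1)/k : ℤ) : ℝ) - (((a.1 - P0.1)/k : ℤ) : ℝ) ≤ 4*r/k
    rw [gval c hc.1, gval a ha.1, ← sub_div]
    have h1 : P0.1 ≤ a.1 := hmin a ha.1
    have h1' : (P0.1:ℝ) ≤ a.1 := by exact_mod_cast h1
    apply div_le_div_of_nonneg_right _ hkR.le
    linarith [hc.2]
  have k2 : ((A.filter (fun s => (P1.1:ℝ) - s.1 ≤ 4*r)).card : ℝ) ≤ 4*r/k+1 := by
    apply card_le_real _ (fun s => (s.1 - P0.1)/k) (ginj.mono (fun x hx => (Finset.mem_filter.1 (Finset.mem_coe.1 hx)).1)) _ (by positivity)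
    intro a ha c hc
    rw [Finset.mem_filter] at ha hc
    show (((c.1 - P0.1)/k : ℤ) : ℝ) - (((a.1 - P0.1)/k : ℤ) : ℝ) ≤ 4*r/k
    rw [gval c hc.1, gval a ha.1, ← sub_div]
    have h1 : c.1 ≤ P1.1 := hmax c hc.1
    have h1' : (c.1:ℝ) ≤ P1.1 := by exact_mod_cast h1
    apply div_le_div_of_nonneg_right _ hkR.le
    linarith [ha.2]
  have : (A.card : ℝ) ≤ ((A.filter (fun s => (s.1:ℝ) - P0.1 ≤ 4*r)).card : ℝ) + ((A.filter (fun s => (P1.1:ℝ) - s.1 ≤ 4*r)).card : ℝ) := by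
    exact_mod_cast hcard.trans hcu
  linarith

/-- window of length `q`, abstract form -/
lemma window2_abs (h : Good f N q) {r b D0 : ℝ} (hr1 : 1 ≤ r) (hr : r^2 = q)
    (A : Finset (ℤ × ℤ)) (hA : ∀ p ∈ A, N ≤ p.1 ∧ p.1 ≤ p.2 ∧ p.2 ≤ 2*N ∧
      b ≤ f p.1 + f p.2 ∧ f p.1 + f p.2 < b+1 ∧ D0 ≤ (p.2:ℝ) - p.1 ∧ (p.2:ℝ) - p.1 ≤ D0 + q) :
    (A.card : ℝ) ≤ 130*r := by
  have hq1 := h.q1
  have hq0 : 0 < q := by linarith
  rcases A.eq_empty_or_nonempty with rfl | hne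
  · simp; linarith
  obtain ⟨P0, hP0, hmin⟩ := A.exists_min_image (fun p => p.1) hne
  obtain ⟨a1, a2, a3, a4, a5, a6, a7⟩ := hA P0 hP0
  -- two points in order
  have hord : ∀ s ∈ A, ∀ s' ∈ A, s.1 ≤ s'.1 → s'.2 ≤ s.2 := by
    intro s hs s' hs' hle
    obtain ⟨s1, s2, s3, s4, s5, s6, s7⟩ := hA s hs
    obtain ⟨c1, c2, c3, c4, c5, c6, c7⟩ := hA s' hs'
    by_contra hlt
    push Not at hlt
    have := h.anti s1 (by omega) s4 c5 hle hlt.le
    omega
  have hinj : ∀ s ∈ A, ∀ s' ∈ A, s.1 = s'.1 → s = s' := by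
    intro s hs s' hs' he
    have h1 := hord s hs s' hs' he.le
    have h2 := hord s' hs' s hs he.ge
    exact Prod.ext he (le_antisymm h2 h1)
  have hup : ∀ s ∈ A, (P0.1:ℝ) ≤ s.1 ∧ (s.2:ℝ) ≤ P0.2 ∧ ((s.1:ℝ) - P0.1) + ((P0.2:ℝ) - s.2) ≤ q := by
    intro s hs
    have h1 : P0.1 ≤ s.1 := hmin s hs
    have h2 := hord P0 hP0 s hs h1
    obtain ⟨s1, s2, s3, s4, s5, s6, s7⟩ := hA s hs
    refine ⟨by exact_mod_cast h1, by exact_mod_cast h2, by linarith⟩
  set α1 := f (P0.1+1) - f P0.1 with hα1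
  set α2 := f (P0.2+1) - f P0.2 with hα2
  have hα1q : q ≤ α1 := h.h1 P0.1 a1
  have hα2q : q ≤ α2 := h.h1 P0.2 (by omega)
  have hα12 : α1 ≤ α2 := by
    obtain ⟨k, hk⟩ := Int.eq_ofNat_of_zero_le (show 0 ≤ P0.2 - P0.1 by omega)
    have e : P0.2 = P0.1 + k := by omega
    have := h.dlo P0.1 a1 k (by omega)
    rw [← e] at this
    have h0 : 0 ≤ (k:ℝ)*(1/(5*q)) := by positivity
    linarith
  have hα2pos : 0 < α2 := by linarith
  -- difference of two points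
  have hdiff : ∀ s ∈ A, ∀ s' ∈ A, s.1 ≤ s'.1 →
      |((s'.1:ℝ) - s.1)*α1 - ((s.2:ℝ) - s'.2)*α2| ≤ 1 + ((s'.1:ℝ) - s.1) + ((s.2:ℝ) - s'.2) := by
    intro s hs s' hs' hle
    have h2 := hord s hs s' hs' hle
    obtain ⟨s1, s2, s3, s4, s5, s6, s7⟩ := hA s hs
    obtain ⟨c1, c2, c3, c4, c5, c6, c7⟩ := hA s' hs'
    obtain ⟨u1, u2, u3⟩ := hup s hs
    obtain ⟨v1, v2, v3⟩ := hup s' hs'
    have t1 := h.slope' P0.1 s.1 s'.1 a1 (by omega) s1 hle (by omega)
      (by rw [abs_of_nonneg (by linarith)]; linarith)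
      (by rw [abs_of_nonneg (by linarith)]; linarith)
    have t2 := h.slope' P0.2 s'.2 s.2 (by omega) (by omega) (by omega) h2 (by omega)
      (by rw [abs_of_nonpos (by linarith)]; linarith)
      (by rw [abs_of_nonpos (by linarith)]; linarith)
    rw [abs_le] at t1 t2 ⊢
    obtain ⟨t1a, t1b⟩ := t1
    obtain ⟨t2a, t2b⟩ := t2
    constructor <;> linarith
  set g := α1/α2 with hg
  have hg1 : g ≤ 1 := by rw [hg, div_le_one hα2pos]; exact hα12
  have hg0 : 0 < g := by rw [hg]; exact div_pos (by linarith) hα2pos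
  have hgα : g*α2 = α1 := by rw [hg]; field_simp
  have hstrip : ∀ s ∈ A, |g*((s.1:ℝ) - P0.1) - ((P0.2:ℝ) - s.2)| ≤ 2 := by
    intro s hs
    have h1 : P0.1 ≤ s.1 := hmin s hs
    have h2 := hdiff P0 hP0 s hs h1
    obtain ⟨u1, u2, u3⟩ := hup s hs
    have h3 : |((s.1:ℝ) - P0.1)*α1 - ((P0.2:ℝ) - s.2)*α2| ≤ 2*α2 := by linarith
    have e : ((s.1:ℝ) - P0.1)*α1 - ((P0.2:ℝ) - s.2)*α2 = (g*((s.1:ℝ) - P0.1) - ((P0.2:ℝ) - s.2))*α2 := by
      rw [← hgα]; ring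
    rw [e, abs_mul, abs_of_pos hα2pos] at h3
    exact le_of_mul_le_mul_right h3 hα2pos
  -- Dirichlet
  have hQ : 0 < ⌊r⌋₊ := Nat.floor_pos.2 hr1
  obtain ⟨x, hx1, hx2⟩ := Real.exists_rat_abs_sub_le_and_den_le g hQ
  set k : ℤ := (x.den : ℤ) with hk
  set p : ℤ := x.num with hp
  have hk0 : 0 < k := by rw [hk]; exact_mod_cast x.den_pos
  have hkR : (0:ℝ) < k := by exact_mod_cast hk0
  have hk1 : (1:ℝ) ≤ k := by exact_mod_cast hk0
  have hkr : (k:ℝ) ≤ r := by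
    have h1 : (x.den:ℝ) ≤ (⌊r⌋₊:ℝ) := by exact_mod_cast hx2
    have h2 : (⌊r⌋₊:ℝ) ≤ r := Nat.floor_le (by linarith)
    have h3 : (k:ℝ) = (x.den:ℝ) := by rw [hk]; simp
    linarith
  have hcop : IsCoprime p k := by
    rw [hk, hp, Int.isCoprime_iff_gcd_eq_one]
    have := x.reduced
    simpa [Int.gcd, Nat.Coprime] using this
  set α := (k:ℝ)*g - p with hα
  have hxpk : (x:ℝ) = (p:ℝ)/k := by
    rw [hp, hk, Rat.cast_def]; simp
  have hαr : |α| * r ≤ 1 := by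
    have e : α = k*(g - x) := by rw [hα, hxpk]; field_simp
    have h1 : |α| = k*|g - x| := by rw [e, abs_mul, abs_of_pos hkR]
    have h2 : r < (⌊r⌋₊:ℝ)+1 := Nat.lt_floor_add_one r
    have h3 : (k:ℝ) = (x.den:ℝ) := by rw [hk]; simp
    have h4 : |α| ≤ 1/((⌊r⌋₊:ℝ)+1) := by
      rw [h1]
      calc (k:ℝ)*|g - x| ≤ k*(1/(((⌊r⌋₊:ℝ)+1)*x.den)) := mul_le_mul_of_nonneg_left hx1 hkR.le
        _ = 1/((⌊r⌋₊:ℝ)+1) := by
          rw [h3]
          have : (x.den:ℝ) ≠ 0 := by rw [← h3]; exact hkR.ne'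
          field_simp
    have h5 : 0 < (⌊r⌋₊:ℝ)+1 := by positivity
    calc |α| * r ≤ 1/((⌊r⌋₊:ℝ)+1) * ((⌊r⌋₊:ℝ)+1) := mul_le_mul h4 h2.le (by linarith) (by positivity)
      _ = 1 := by field_simp
  have hα1' : |α| ≤ 1 := by nlinarith [abs_nonneg α]
  have hαq : |α| * q ≤ r := by
    rw [← hr]; nlinarith [abs_nonneg α]
  have hp0 : (-1:ℝ) < p + 0 := by
    have : α ≤ |α| := le_abs_self α
    have h2 : 0 < (k:ℝ)*g := by positivity
    linarith
  have hpk' : (p:ℝ) ≤ k + 1 := by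
    have : -α ≤ |α| := neg_le_abs α
    have h2 : (k:ℝ)*g ≤ k := by nlinarith
    linarith
  have hp0' : 0 ≤ p := by
    have : (-1:ℝ) < p := by linarith
    have : (-1:ℤ) < p := by exact_mod_cast this
    omega
  have hp0R : (0:ℝ) ≤ p := by exact_mod_cast hp0'
  -- the line function
  set ℓ : ℤ × ℤ → ℤ := fun s => k * s.2 + p * s.1 with hℓ
  have hℓb : ∀ s ∈ A, |((ℓ s : ℤ):ℝ) - (ℓ P0 : ℤ)| ≤ 2*k + |α| * q := by
    intro s hs
    obtain ⟨u1, u2, u3⟩ := hup s hs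
    have e : ((ℓ s : ℤ):ℝ) - (ℓ P0 : ℤ) = k*(g*((s.1:ℝ) - P0.1) - ((P0.2:ℝ) - s.2)) - α*((s.1:ℝ) - P0.1) := by
      rw [hℓ, hα]; push_cast; ring
    rw [e]
    have h1 := abs_sub (k*(g*((s.1:ℝ) - P0.1) - ((P0.2:ℝ) - s.2))) (α*((s.1:ℝ) - P0.1))
    have h2 : |k*(g*((s.1:ℝ) - P0.1) - ((P0.2:ℝ) - s.2))| ≤ k*2 := by
      rw [abs_mul, abs_of_pos hkR]; exact mul_le_mul_of_nonneg_left (hstrip s hs) hkR.le
    have h3 : |α*((s.1:ℝ) - P0.1)| ≤ |α| * q := by
      rw [abs_mul]; apply mul_le_mul_of_nonneg_left _ (abs_nonneg α)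
      rw [abs_of_nonneg (by linarith)]; linarith
    linarith
  -- number of values of ℓ
  have hcardimg : ((A.image ℓ).card : ℝ) ≤ 2*(2*k+|α| * q) + 1 := by
    apply card_le_real (A.image ℓ) id (Function.injective_id.injOn) _ (by positivity)
    intro y hy y' hy'
    rw [Finset.mem_image] at hy hy'
    obtain ⟨s, hs, rfl⟩ := hy
    obtain ⟨s', hs', rfl⟩ := hy'
    have b1 := hℓb s hs
    have b2 := hℓb s' hs'
    rw [abs_le] at b1 b2
    simp only [id]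
    linarith [b1.1, b2.2]
  rcases lt_or_ge (4*(k:ℝ)) (q*|α|) with hcase | hcase
  · -- at most one point on each line
    have hinjℓ : Set.InjOn ℓ A := by
      have main : ∀ s ∈ A, ∀ s' ∈ A, s.1 < s'.1 → ℓ s = ℓ s' → False := by
        intro s hs s' hs' hlt he
        have h2 := hord s hs s' hs' hlt.le
        have hd := hdiff s hs s' hs' hlt.le
        have he' : (k:ℝ)*((s.2:ℝ) - s'.2) = p*((s'.1:ℝ) - s.1) := by
          have : k * s.2 + p * s.1 = k * s'.2 + p * s'.1 := he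
          have : (k:ℝ) * s.2 + p * s.1 = k * s'.2 + p * s'.1 := by exact_mod_cast this
          linarith
        set U := (s'.1:ℝ) - s.1 with hU
        set V := (s.2:ℝ) - s'.2 with hV
        have hU1 : 1 ≤ U := by
          have : s.1 + 1 ≤ s'.1 := hlt
          have : (s.1:ℝ) + 1 ≤ s'.1 := by exact_mod_cast this
          linarith
        have hk2 : |(k:ℝ)*(U*α1 - V*α2)| ≤ k*(1 + U + V) := by
          rw [abs_mul, abs_of_pos hkR]; exact mul_le_mul_of_nonneg_left hd hkR.le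
        have e : (k:ℝ)*(U*α1 - V*α2) = U*(α*α2) := by
          have : (k:ℝ)*(U*α1 - V*α2) = k*U*α1 - (k*V)*α2 := by ring
          rw [this, he', ← hgα, hα]; ring
        rw [e, abs_mul, abs_mul, abs_of_pos hα2pos, abs_of_pos (by linarith : 0 < U)] at hk2
        have e3 : (k:ℝ)*(1+U+V) = k + k*U + p*U := by
          rw [← he']; ring
        rw [e3] at hk2
        have hb : (k:ℝ) + k*U + p*U ≤ 4*k*U := by nlinarith
        have hc : U*(4*k) < U*(|α| * α2) := by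
          apply mul_lt_mul_of_pos_left _ (by linarith)
          have : |α| * q ≤ |α| * α2 := mul_le_mul_of_nonneg_left hα2q (abs_nonneg α)
          linarith
        linarith
      intro s hs s' hs' he
      rcases lt_trichotomy s.1 s'.1 with hlt | heq | hgt
      · exact (main s hs s' hs' hlt he).elim
      · exact hinj s hs s' hs' heq
      · exact (main s' hs' s hs hgt he.symm).elim
    have : (A.image ℓ).card = A.card := Finset.card_image_of_injOn hinjℓ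
    rw [this] at hcardimg
    linarith
  · -- few lines
    have hfib : ∀ y ∈ A.image ℓ, ((A.filter (fun s => ℓ s = y)).card : ℝ) ≤ 2*(4*r/k+1) := by
      intro y hy
      apply line_abs h (b := b) hr1 hr hk0 hcop (l := y)
      intro s hs
      rw [Finset.mem_filter] at hs
      obtain ⟨s1, s2, s3, s4, s5, s6, s7⟩ := hA s hs.1
      exact ⟨s1, s2, s3, s4, s5, hs.2⟩
    have hsum : (A.card : ℝ) = ∑ y ∈ A.image ℓ, ((A.filter (fun s => ℓ s = y)).card : ℝ) := by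
      have := Finset.card_eq_sum_card_image ℓ A
      exact_mod_cast this
    have hle : (A.card : ℝ) ≤ (A.image ℓ).card * (2*(4*r/k+1)) := by
      rw [hsum]
      have := Finset.sum_le_card_nsmul (A.image ℓ) _ _ hfib
      rwa [nsmul_eq_mul] at this
    have hl : ((A.image ℓ).card : ℝ) ≤ 13*k := by linarith
    have hpos : 0 ≤ 2*(4*r/k+1) := by positivity
    have hfin : (A.card : ℝ) ≤ 13*k*(2*(4*r/k+1)) := hle.trans (mul_le_mul_of_nonneg_right hl hpos)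
    have e : 13*(k:ℝ)*(2*(4*r/k+1)) = 104*r + 26*k := by field_simp; ring
    rw [e] at hfin
    linarith

end DRC
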